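import Mathlib
import Pool.Agent.Helper3.ETF.Compact

/-!
# E-T (MP_12a1af_nt), phase 3, P0: the label lemma

Bounds for the pairs of blocks are enough: the low `log K + 2` digits of the elements of the block
`K` are made equal to the digits of `K`, so that the sum `n` and the large scale `K` determine the
small scale `K'` up to `log K + 1` values.
-/

open Finset

set_option autoImplicit false

namespace Pool.Agent.Helper7.E3

/-- the number of label digits -/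
def lb (K : ℕ) : ℕ := Nat.log 2 K + 2

/-- sets in the dyadic blocks of the scales `K0 ≤ K ≤ Kmax` with a bound for every pair of scales -/
structure PairHyp (Kmax K0 : ℕ) (R cnt : ℕ → ℕ) : Prop where
  ex : ∃ A : ℕ → Finset ℕ,
    (∀ K, K0 ≤ K → K ≤ Kmax → ∀ a ∈ A K, 2 ^ K ≤ a ∧ a < 2 ^ (K + 1)) ∧
    (∀ K K', K0 ≤ K' → K' ≤ K → K ≤ Kmax → ∀ n,
      ((A K ×ˢ A K').filter (fun q : ℕ × ℕ => q.1 + q.2 = n)).card ≤ R K) ∧
    (∀ K, K0 ≤ K → K ≤ Kmax → cnt K ≤ (A K).card)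

lemma PairHyp.mono {Kmax K0 K1 : ℕ} {R cnt : ℕ → ℕ} (h : PairHyp Kmax K0 R cnt) (hK : K0 ≤ K1) :
    PairHyp Kmax K1 R cnt := by
  obtain ⟨A, h1, h2, h3⟩ := h.ex
  exact ⟨A, fun K hK1 => h1 K (hK.trans hK1), fun K K' hK1 => h2 K K' (hK.trans hK1),
    fun K hK1 => h3 K (hK.trans hK1)⟩

/-- one block with label -/
lemma label_block {K : ℕ} {A : Finset ℕ} (hK : 1 ≤ K)
    (hA : ∀ a ∈ A, 2 ^ K ≤ a ∧ a < 2 ^ (K + 1)) :
    ∃ (s : ℕ) (B : Finset ℕ), (∀ b ∈ B, 2 ^ K ≤ b ∧ b < 2 ^ (K + 1)) ∧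
      (∀ b ∈ B, b ≡ K [MOD 2 ^ lb K]) ∧ (∀ b ∈ B, ∃ a ∈ A, b = a + s) ∧
      A.card / (4 * K) - 1 ≤ B.card := by
  classical
  set N := 2 ^ lb K with hN
  have hN0 : 0 < N := by positivity
  have hN4 : N ≤ 4 * K := by
    have h1 : 2 ^ Nat.log 2 K ≤ K := Nat.pow_log_le_self 2 (by omega)
    have h2 : N = 2 ^ Nat.log 2 K * 4 := by rw [hN]; unfold lb; rw [pow_add]; norm_num
    omega
  obtain ⟨r, hr, hcard⟩ : ∃ r ∈ range N, A.card / N ≤ (A.filter (fun a => a % N = r)).card := by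
    refine Finset.exists_le_card_fiber_of_mul_le_card_of_maps_to
      (fun a _ => by rw [mem_range]; exact Nat.mod_lt _ hN0) ?_ ?_
    · exact ⟨0, by rw [mem_range]; exact hN0⟩
    · rw [card_range]
      exact Nat.mul_div_le _ _
  rw [mem_range] at hr
  set s := (K + (N - r)) % N with hs
  have hsN : s < N := Nat.mod_lt _ hN0
  set F := A.filter (fun a => a % N = r) with hF
  refine ⟨s, (F.image (fun a => a + s)).filter (fun b => b < 2 ^ (K + 1)), ?_, ?_, ?_, ?_⟩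
  · intro b hb
    rw [mem_filter, mem_image] at hb
    obtain ⟨⟨a, ha, rfl⟩, hb2⟩ := hb
    rw [hF, mem_filter] at ha
    have := hA a ha.1
    exact ⟨by omega, hb2⟩
  · intro b hb
    rw [mem_filter, mem_image] at hb
    obtain ⟨⟨a, ha, rfl⟩, -⟩ := hb
    rw [hF, mem_filter] at ha
    show (a + s) % N = K % N
    have e1 : (a + s) % N = (r + (K + (N - r))) % N := by
      conv_lhs => rw [Nat.add_mod, ha.2, hs, Nat.mod_mod]
      conv_rhs => rw [Nat.add_mod, Nat.mod_eq_of_lt hr]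
    rw [e1]
    have e2 : r + (K + (N - r)) = K + N := by omega
    rw [e2, Nat.add_mod_right]
  · intro b hb
    rw [mem_filter, mem_image] at hb
    obtain ⟨⟨a, ha, rfl⟩, -⟩ := hb
    rw [hF, mem_filter] at ha
    exact ⟨a, ha.1, rfl⟩
  · have h1 : A.card / (4 * K) ≤ A.card / N := Nat.div_le_div_left hN4 hN0
    have h2 : (F.image (fun a => a + s)).card = F.card :=
      card_image_of_injective _ (fun a b h => by simpa using h)
    have h3 : ((F.image (fun a => a + s)).filter (fun b => ¬ b < 2 ^ (K + 1))).card ≤ 1 := by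
      rw [card_le_one]
      intro b hb b' hb'
      rw [mem_filter, mem_image] at hb hb'
      obtain ⟨⟨a, ha, rfl⟩, hb2⟩ := hb
      obtain ⟨⟨a', ha', rfl⟩, hb2'⟩ := hb'
      rw [hF, mem_filter] at ha ha'
      have q1 := hA a ha.1
      have q2 := hA a' ha'.1
      have q3 : a ≡ a' [MOD N] := by
        show a % N = a' % N
        rw [ha.2, ha'.2]
      have : a = a' := by
        rcases le_total a a' with h | h
        · have h5 := (Nat.modEq_iff_dvd' h).mp q3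
          have h6 : a' - a = 0 := Nat.eq_zero_of_dvd_of_lt h5 (by omega)
          omega
        · have h5 := (Nat.modEq_iff_dvd' h).mp q3.symm
          have h6 : a - a' = 0 := Nat.eq_zero_of_dvd_of_lt h5 (by omega)
          omega
      rw [this]
    have h4 := Finset.card_filter_add_card_filter_not (s := F.image (fun a => a + s))
      (fun b => b < 2 ^ (K + 1))
    omega

/-- the label determines the small scale -/
lemma label_unique {K K1 K2 i n b b1 b2 b' : ℕ} (hb : b ≡ K [MOD 2 ^ lb K])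
    (hb' : b' ≡ K [MOD 2 ^ lb K])
    (h1 : b1 ≡ K1 [MOD 2 ^ lb K1]) (h2 : b2 ≡ K2 [MOD 2 ^ lb K2])
    (hi1 : Nat.log 2 K1 = i) (hi2 : Nat.log 2 K2 = i) (hi : i ≤ Nat.log 2 K)
    (e1 : b + b1 = n) (e2 : b' + b2 = n) : K1 = K2 := by
  have hd : 2 ^ (i + 2) ∣ 2 ^ lb K := pow_dvd_pow _ (by unfold lb; omega)
  have q : b ≡ b' [MOD 2 ^ (i + 2)] := (hb.of_dvd hd).trans (hb'.of_dvd hd).symm
  have q1 : b1 ≡ K1 [MOD 2 ^ (i + 2)] := by
    have : lb K1 = i + 2 := by unfold lb; omega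
    rwa [this] at h1
  have q2 : b2 ≡ K2 [MOD 2 ^ (i + 2)] := by
    have : lb K2 = i + 2 := by unfold lb; omega
    rwa [this] at h2
  have q3 : b1 ≡ b2 [MOD 2 ^ (i + 2)] := by
    refine Nat.ModEq.add_left_cancel q ?_
    rw [e1, e2]
  have q4 : K1 ≡ K2 [MOD 2 ^ (i + 2)] := (q1.symm.trans q3).trans q2
  have b1 : K1 < 2 ^ (i + 1) := by rw [← hi1]; exact Nat.lt_pow_succ_log_self (by norm_num) _
  have b2 : K2 < 2 ^ (i + 1) := by rw [← hi2]; exact Nat.lt_pow_succ_log_self (by norm_num) _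
  have b3 : 2 ^ (i + 1) ≤ 2 ^ (i + 2) := Nat.pow_le_pow_right (by norm_num) (by omega)
  have r1 : K1 % 2 ^ (i + 2) = K1 := Nat.mod_eq_of_lt (by omega)
  have r2 : K2 % 2 ^ (i + 2) = K2 := Nat.mod_eq_of_lt (by omega)
  have q5 : K1 % 2 ^ (i + 2) = K2 % 2 ^ (i + 2) := q4
  omega

/-- the pairs with larger scale `K` -/
lemma card_scale_le {Kmax K0 : ℕ} {B : ℕ → Finset ℕ} {R : ℕ → ℕ}
    (hlab : ∀ K, K0 ≤ K → K ≤ Kmax → ∀ b ∈ B K, b ≡ K [MOD 2 ^ lb K])
    (hR : ∀ K K', K0 ≤ K' → K' ≤ K → K ≤ Kmax → ∀ n,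
      ((B K ×ˢ B K').filter (fun q : ℕ × ℕ => q.1 + q.2 = n)).card ≤ R K)
    {K : ℕ} (hK : K0 ≤ K) (hKm : K ≤ Kmax) (n : ℕ) :
    (((B K) ×ˢ (Icc K0 K).biUnion B).filter (fun q : ℕ × ℕ => q.1 + q.2 = n)).card
      ≤ (Nat.log 2 K + 1) * R K := by
  classical
  -- the possible small scales
  set S := (Icc K0 K).filter
    (fun K' => ((B K ×ˢ B K').filter (fun q : ℕ × ℕ => q.1 + q.2 = n)).Nonempty) with hS
  have hScard : S.card ≤ Nat.log 2 K + 1 := by
    rw [← card_range (Nat.log 2 K + 1)]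
    refine card_le_card_of_injOn (fun K' => Nat.log 2 K') ?_ ?_
    · intro K' hK'
      have hK'' : K' ∈ S := hK'
      rw [hS, mem_filter, mem_Icc] at hK''
      simp only [coe_range, Set.mem_Iio]
      have := Nat.log_mono_right (b := 2) hK''.1.2
      omega
    · intro K1 h1 K2 h2 heq
      have h1' : K1 ∈ S := h1
      have h2' : K2 ∈ S := h2
      rw [hS, mem_filter, mem_Icc] at h1' h2'
      obtain ⟨⟨a1, a2⟩, ⟨p, hp⟩⟩ := h1'
      obtain ⟨⟨a3, a4⟩, ⟨q, hq⟩⟩ := h2'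
      rw [mem_filter, mem_product] at hp hq
      exact label_unique (hlab K hK hKm _ hp.1.1) (hlab K hK hKm _ hq.1.1)
        (hlab K1 a1 (a2.trans hKm) _ hp.1.2) (hlab K2 a3 (a4.trans hKm) _ hq.1.2)
        heq rfl (Nat.log_mono_right a4) hp.2 hq.2
  have hsub : ((B K) ×ˢ (Icc K0 K).biUnion B).filter (fun q : ℕ × ℕ => q.1 + q.2 = n) ⊆
      S.biUnion (fun K' => (B K ×ˢ B K').filter (fun q : ℕ × ℕ => q.1 + q.2 = n)) := by
    intro q hq
    rw [mem_filter, mem_product, mem_biUnion] at hq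
    obtain ⟨⟨h1, K', h2, h3⟩, h4⟩ := hq
    have hmem : q ∈ (B K ×ˢ B K').filter (fun q : ℕ × ℕ => q.1 + q.2 = n) := by
      rw [mem_filter, mem_product]; exact ⟨⟨h1, h3⟩, h4⟩
    rw [mem_biUnion]
    refine ⟨K', ?_, hmem⟩
    rw [hS, mem_filter]
    exact ⟨h2, ⟨q, hmem⟩⟩
  refine (card_le_card hsub).trans (card_biUnion_le.trans ?_)
  calc ∑ K' ∈ S, ((B K ×ˢ B K').filter (fun q : ℕ × ℕ => q.1 + q.2 = n)).card
      ≤ ∑ K' ∈ S, R K := by
        refine sum_le_sum (fun K' hK' => ?_)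
        rw [hS, mem_filter, mem_Icc] at hK'
        exact hR K K' hK'.1.1 hK'.1.2 hKm n
    _ = S.card * R K := by rw [sum_const, smul_eq_mul]
    _ ≤ (Nat.log 2 K + 1) * R K := Nat.mul_le_mul_right _ hScard

/-- **the label lemma**, finite version -/
theorem label {Kmax K0 : ℕ} (hK0 : 1 ≤ K0) {R cnt : ℕ → ℕ} (h : PairHyp Kmax K0 R cnt) :
    ∃ B : Finset ℕ,
      (∀ n, ((B ×ˢ B).filter (fun q : ℕ × ℕ => q.1 + q.2 = n)).card ≤
        2 * ((Nat.log 2 (Nat.log 2 n - 1) + 1) * R (Nat.log 2 n - 1) +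
          (Nat.log 2 (Nat.log 2 n) + 1) * R (Nat.log 2 n))) ∧
      ∀ K, K0 ≤ K → K ≤ Kmax →
        cnt K / (4 * K) - 1 ≤ (B.filter (fun a => 2 ^ K ≤ a ∧ a < 2 ^ (K + 1))).card := by
  classical
  obtain ⟨A, hA1, hA2, hA3⟩ := h.ex
  have hex : ∀ K, ∃ (s : ℕ) (B : Finset ℕ), K0 ≤ K → K ≤ Kmax →
      (∀ b ∈ B, 2 ^ K ≤ b ∧ b < 2 ^ (K + 1)) ∧
      (∀ b ∈ B, b ≡ K [MOD 2 ^ lb K]) ∧ (∀ b ∈ B, ∃ a ∈ A K, b = a + s) ∧
      (A K).card / (4 * K) - 1 ≤ B.card := by
    intro K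
    by_cases hK : K0 ≤ K ∧ K ≤ Kmax
    · obtain ⟨s, B, hB⟩ := label_block (K := K) (A := A K) (by omega) (hA1 K hK.1 hK.2)
      exact ⟨s, B, fun _ _ => hB⟩
    · exact ⟨0, ∅, fun h1 h2 => absurd ⟨h1, h2⟩ hK⟩
  choose s B hB using hex
  have hR : ∀ K K', K0 ≤ K' → K' ≤ K → K ≤ Kmax → ∀ n,
      ((B K ×ˢ B K').filter (fun q : ℕ × ℕ => q.1 + q.2 = n)).card ≤ R K := by
    intro K K' h1 h2 h3 n
    have hBK := hB K (h1.trans h2) h3
    have hBK' := hB K' h1 (h2.trans h3)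
    by_cases hne : ((B K ×ˢ B K').filter (fun q : ℕ × ℕ => q.1 + q.2 = n)) = ∅
    · rw [hne]; simp
    refine le_trans ?_ (hA2 K K' h1 h2 h3 (n - s K - s K'))
    refine card_le_card_of_injOn (fun q => (q.1 - s K, q.2 - s K')) ?_ ?_
    · intro q hq
      have hq' : q ∈ ((B K ×ˢ B K').filter (fun q : ℕ × ℕ => q.1 + q.2 = n)) := hq
      rw [mem_filter, mem_product] at hq'
      obtain ⟨a, ha, e1⟩ := hBK.2.2.1 q.1 hq'.1.1
      obtain ⟨a', ha', e2⟩ := hBK'.2.2.1 q.2 hq'.1.2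
      simp only [coe_filter, Set.mem_ofPred_eq, mem_product]
      have e3 : q.1 - s K = a := by omega
      have e4 : q.2 - s K' = a' := by omega
      rw [e3, e4]
      refine ⟨⟨ha, ha'⟩, ?_⟩
      have := hq'.2
      omega
    · intro q hq q' hq' heq
      have hq1 : q ∈ ((B K ×ˢ B K').filter (fun q : ℕ × ℕ => q.1 + q.2 = n)) := hq
      have hq2 : q' ∈ ((B K ×ˢ B K').filter (fun q : ℕ × ℕ => q.1 + q.2 = n)) := hq'
      rw [mem_filter, mem_product] at hq1 hq2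
      obtain ⟨a, ha, e1⟩ := hBK.2.2.1 q.1 hq1.1.1
      obtain ⟨a', ha', e2⟩ := hBK'.2.2.1 q.2 hq1.1.2
      obtain ⟨b, hb, e3⟩ := hBK.2.2.1 q'.1 hq2.1.1
      obtain ⟨b', hb', e4⟩ := hBK'.2.2.1 q'.2 hq2.1.2
      simp only [Prod.mk.injEq] at heq
      refine Prod.ext ?_ ?_ <;> omega
  set U := (Icc K0 Kmax).biUnion B with hU
  refine ⟨U, fun n => ?_, fun K h1 h2 => ?_⟩
  · set L := Nat.log 2 n with hL
    -- the pairs with larger scale K
    set P : ℕ → Finset (ℕ × ℕ) := fun K =>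
      ((B K) ×ˢ (Icc K0 K).biUnion B).filter (fun q : ℕ × ℕ => q.1 + q.2 = n) with hP
    have hsub : (U ×ˢ U).filter (fun q : ℕ × ℕ => q.1 + q.2 = n) ⊆
        (((Icc K0 Kmax).filter (fun K => K = L - 1 ∨ K = L)).biUnion P) ∪
        (((Icc K0 Kmax).filter (fun K => K = L - 1 ∨ K = L)).biUnion P).image Prod.swap := by
      intro q hq
      rw [mem_filter, mem_product, hU, mem_biUnion, mem_biUnion] at hq
      obtain ⟨⟨⟨K1, hK1, hq1⟩, ⟨K2, hK2, hq2⟩⟩, hsum⟩ := hq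
      rw [mem_Icc] at hK1 hK2
      have key : ∀ (K K' b b' : ℕ), K0 ≤ K → K ≤ Kmax → K0 ≤ K' → K' ≤ K → b ∈ B K → b' ∈ B K' →
          b + b' = n → (b, b') ∈ (((Icc K0 Kmax).filter (fun K => K = L - 1 ∨ K = L)).biUnion P) := by
        intro K K' b b' a1 a2 a3 a4 hb hb' hs
        have c1 := (hB K a1 a2).1 b hb
        have c2 := (hB K' a3 (a4.trans a2)).1 b' hb'
        have c3 : 2 ^ (K' + 1) ≤ 2 ^ (K + 1) := Nat.pow_le_pow_right (by norm_num) (by omega)
        have d1 : K ≤ L := by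
          rw [hL]
          exact Nat.le_log_of_pow_le (by norm_num) (by omega)
        have d2 : L < K + 2 := by
          rw [hL]
          refine Nat.log_lt_of_lt_pow ?_ ?_
          · have : 0 < 2 ^ K := by positivity
            omega
          · have : 2 ^ (K + 2) = 2 ^ (K + 1) + 2 ^ (K + 1) := by ring
            omega
        rw [mem_biUnion]
        refine ⟨K, ?_, ?_⟩
        · rw [mem_filter, mem_Icc]
          exact ⟨⟨a1, a2⟩, by omega⟩
        · rw [hP]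
          simp only [mem_filter, mem_product, mem_biUnion, mem_Icc]
          exact ⟨⟨hb, K', ⟨a3, a4⟩, hb'⟩, hs⟩
      rw [mem_union]
      rcases le_total K2 K1 with h | h
      · left
        exact key K1 K2 q.1 q.2 hK1.1 hK1.2 hK2.1 h hq1 hq2 hsum
      · right
        rw [mem_image]
        exact ⟨(q.2, q.1), key K2 K1 q.2 q.1 hK2.1 hK2.2 hK1.1 h hq2 hq1 (by omega), rfl⟩
    have hcard : (((Icc K0 Kmax).filter (fun K => K = L - 1 ∨ K = L)).biUnion P).card ≤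
        (Nat.log 2 (L - 1) + 1) * R (L - 1) + (Nat.log 2 L + 1) * R L := by
      have hPle : ∀ K, K0 ≤ K → K ≤ Kmax → (P K).card ≤ (Nat.log 2 K + 1) * R K := by
        intro K a1 a2
        exact card_scale_le (fun K b1 b2 => (hB K b1 b2).2.1) hR a1 a2 n
      refine card_biUnion_le.trans ?_
      calc ∑ K ∈ (Icc K0 Kmax).filter (fun K => K = L - 1 ∨ K = L), (P K).card
          ≤ ∑ K ∈ (Icc K0 Kmax).filter (fun K => K = L - 1 ∨ K = L),
            (Nat.log 2 K + 1) * R K := by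
            refine sum_le_sum (fun K hK => ?_)
            rw [mem_filter, mem_Icc] at hK
            exact hPle K hK.1.1 hK.1.2
        _ ≤ ∑ K ∈ ({L - 1, L} : Finset ℕ), (Nat.log 2 K + 1) * R K := by
            refine sum_le_sum_of_subset ?_
            intro K hK
            rw [mem_filter] at hK
            rw [mem_insert, mem_singleton]
            exact hK.2
        _ ≤ (Nat.log 2 (L - 1) + 1) * R (L - 1) + (Nat.log 2 L + 1) * R L := by
            by_cases hLL : L - 1 = L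
            · rw [hLL, Finset.pair_eq_singleton, sum_singleton]
              omega
            · rw [sum_pair hLL]
    refine (card_le_card hsub).trans ((card_union_le _ _).trans ?_)
    have := card_image_le (s := (((Icc K0 Kmax).filter (fun K => K = L - 1 ∨ K = L)).biUnion P))
      (f := Prod.swap)
    omega
  · have hBK := hB K h1 h2
    refine le_trans ?_ (le_trans hBK.2.2.2 (card_le_card ?_))
    · exact Nat.sub_le_sub_right (Nat.div_le_div_right (hA3 K h1 h2)) 1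
    · intro b hb
      rw [mem_filter, hU, mem_biUnion]
      exact ⟨⟨K, by rw [mem_Icc]; exact ⟨h1, h2⟩, hb⟩, hBK.1 b hb⟩

/-- **the frame of phase 3**: bounds for the pairs of scales give the infinite set -/
theorem frame2 {K0 : ℕ} (hK0 : 1 ≤ K0) {R cnt : ℕ → ℕ} (h : ∀ Kmax, PairHyp Kmax K0 R cnt) :
    ∃ A : Set ℕ, (∀ n, {q : ℕ × ℕ | q.1 ∈ A ∧ q.2 ∈ A ∧ q.1 + q.2 = n}.ncard ≤
        2 * ((Nat.log 2 (Nat.log 2 n - 1) + 1) * R (Nat.log 2 n - 1) +
          (Nat.log 2 (Nat.log 2 n) + 1) * R (Nat.log 2 n))) ∧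
      ∀ K, K0 ≤ K → cnt K / (4 * K) - 1 ≤ (A ∩ Set.Ico (2 ^ K) (2 ^ (K + 1))).ncard :=
  Pool.Agent.ETP.compactness _ K0 (fun K => cnt K / (4 * K) - 1) (fun Kmax => label hK0 (h Kmax))

end Pool.Agent.Helper7.E3
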