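import Mathlib
import Pool.Agent.E3.FD
import Pool.Agent.Helper3.ETF.Frame
import Pool.Agent.Helper7.E3.Label

/-!
# E-T (MP_12a1af_nt), phase 3: from the layouts to the pair bounds

`pairHyp_of_lay`: the far hypotheses `E3F.FarHyp` (with prescribed hash values `x₀` on the regions
`nf`), the near bounds for all hash functions with the prescribed values, injectivity of the codes
and the count give `PairHyp` with the bound `max (near K) (s K)`.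
-/

open Finset

set_option autoImplicit false

namespace Pool.Agent.Helper7.E3

open Pool.Agent.ETS
open Pool.Agent.ETP (AK PK vars AK_bounds card_AK FarP)
open Pool.Agent.E3F (nfI FarHyp exists_goodP failA nlen)

/-- bounds for the near pairs, for all hash functions with the prescribed values -/
structure NearHyp2 (M : ℕ) {N : ℕ} (Kmax : ℕ) (lay : ℕ → Lay N) (nf : ℕ → Finset ℕ) (K0 : ℕ)
    (g near : ℕ → ℕ) (x₀ : ∀ q : Ind M N Kmax, Xsp lay q) : Prop where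
  near : ∀ K K' : Fin (Kmax+1), ∀ x ∈ fib (nfI nf) x₀, K0 ≤ K'.val → K'.val ≤ K.val →
    K.val < K'.val + g K → ∀ n, (PK lay K K' n x).card ≤ near K

/-- everything which is needed from the layouts of the scales up to `Kmax` -/
structure LayHyp2 (Kmax K0 : ℕ) (g mm : ℕ → ℕ) (ε : ℕ → ℝ) (near cnt : ℕ → ℕ) : Prop where
  ex : ∃ (M N : ℕ) (lay : ℕ → Lay N) (pad : ℕ → ℕ) (nf : ℕ → Finset ℕ) (ct : ℕ → ℕ)
    (x₀ : ∀ q : Ind M N Kmax, Xsp lay q),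
    FarHyp M Kmax lay pad nf ct K0 g mm ε ∧ NearHyp2 M Kmax lay nf K0 g near x₀ ∧
    (∀ K, K0 ≤ K → K ≤ Kmax → ∀ i < M, ∀ v ∈ (lay K).V i, ∀ v' ∈ (lay K).V i,
      (lay K).c i v ≡ (lay K).c i v' [MOD 2 ^ (lay K).len i] → v = v') ∧
    (∀ K, K0 ≤ K → K ≤ Kmax → cnt K ≤ ∏ m : Fin M, ((lay K).V m.val).card)

lemma farHyp_mono {M N Kmax : ℕ} {lay : ℕ → Lay N} {pad : ℕ → ℕ} {nf : ℕ → Finset ℕ}
    {ct : ℕ → ℕ} {K0 K1 : ℕ} {g mm : ℕ → ℕ} {ε : ℕ → ℝ}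
    (h : FarHyp M Kmax lay pad nf ct K0 g mm ε) (hK : K0 ≤ K1) :
    FarHyp M Kmax lay pad nf ct K1 g mm ε where
  good := h.good
  padM := h.padM
  fresh1 := h.fresh1
  ct1 := fun K h1 h2 => h.ct1 K h1 (hK.trans h2)
  ct2 := fun K h1 h2 => h.ct2 K h1 (hK.trans h2)
  ctb := fun K h1 h2 => h.ctb K h1 (hK.trans h2)
  card := h.card
  triv := h.triv
  gpos := h.gpos
  eps0 := h.eps0
  mm := fun K hK2 L h1 h2 => h.mm K hK2 L (hK.trans h1) h2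
  far := fun K hK2 K' h1 h2 => h.far K hK2 K' (hK.trans h1) h2

lemma LayHyp2.mono {Kmax K0 K1 : ℕ} {g mm : ℕ → ℕ} {ε : ℕ → ℝ} {near cnt : ℕ → ℕ}
    (h : LayHyp2 Kmax K0 g mm ε near cnt) (hK : K0 ≤ K1) : LayHyp2 Kmax K1 g mm ε near cnt := by
  obtain ⟨M, N, lay, pad, nf, ct, x₀, h1, h2, h3, h4⟩ := h.ex
  exact ⟨M, N, lay, pad, nf, ct, x₀, farHyp_mono h1 hK,
    ⟨fun K K' x hx h5 => h2.near K K' x hx (hK.trans h5)⟩, fun K hK1 => h3 K (hK.trans hK1),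
    fun K hK1 => h4 K (hK.trans hK1)⟩

/-- **from the layouts to the pair bounds** -/
theorem pairHyp_of_lay {Kmax K0 : ℕ} {g mm : ℕ → ℕ} {ε : ℕ → ℝ} {near cnt : ℕ → ℕ}
    (h : LayHyp2 Kmax K0 g mm ε near cnt) (s : ℕ → ℕ)
    (hfail : ∑ K ∈ Icc K0 Kmax, failA mm s ε K < 1) :
    PairHyp Kmax K0 (fun K => max (near K) (s K)) cnt := by
  classical
  obtain ⟨M, N, lay, pad, nf, ct, x₀, hF, hN, hinj, hcnt⟩ := h.ex
  obtain ⟨x, hx0, hx⟩ := exists_goodP lay pad nf hF s x₀ hfail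
  refine ⟨fun K => if hK : K < Kmax + 1 then AK lay (⟨K, hK⟩ : Fin (Kmax+1)) x else ∅,
    ?_, ?_, ?_⟩
  · intro K _ hKm a ha
    have hlt : K < Kmax + 1 := by omega
    simp only [hlt, dif_pos] at ha
    exact AK_bounds lay hF.good ha
  · intro K K' hK' hKK hKm n
    have hlt : K < Kmax + 1 := by omega
    have hlt' : K' < Kmax + 1 := by omega
    simp only [hlt, hlt', dif_pos]
    by_cases hfar : K' + g K ≤ K
    · refine le_trans ?_ (le_max_right _ _)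
      by_cases hn : n < 2 ^ (K + 2)
      · refine le_trans ?_ (hx ⟨K, hlt⟩ (by simp only; omega) n hn).le
        refine card_le_card ?_
        intro q hq
        unfold FarP
        rw [mem_biUnion]
        refine ⟨⟨K', hlt'⟩, ?_, hq⟩
        rw [mem_filter]
        exact ⟨mem_univ _, hK', hfar⟩
      · refine le_trans (le_of_eq ?_) (Nat.zero_le _)
        rw [card_eq_zero, filter_eq_empty_iff]
        intro q hq hqn
        rw [mem_product] at hq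
        have h1 := (AK_bounds lay hF.good hq.1).2
        have h2 := (AK_bounds lay hF.good hq.2).2
        simp only at h1 h2
        have h3 : 2 ^ (K' + 1) ≤ 2 ^ (K + 1) := Nat.pow_le_pow_right (by norm_num) (by omega)
        have h4 : 2 ^ (K + 2) = 2 ^ (K + 1) + 2 ^ (K + 1) := by ring
        omega
    · refine le_trans ?_ (le_max_left _ _)
      exact hN.near ⟨K, hlt⟩ ⟨K', hlt'⟩ x hx0 hK' hKK (by simp only; omega) n
  · intro K hK0 hKm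
    have hlt : K < Kmax + 1 := by omega
    simp only [hlt, dif_pos]
    rw [card_AK lay hF.good ⟨K, hlt⟩ (hinj K hK0 hKm) x]
    exact hcnt K hK0 hKm

/-- the failure probabilities are small -/
lemma failA_le {mm s : ℕ → ℕ} {ε : ℕ → ℝ} (q : ℕ → ℕ) {K : ℕ} (hε : 0 ≤ ε K)
    (h1 : (K : ℝ) * (mm K : ℝ) ^ 2 * (2 * s K + 1) ^ 2 * ε K ≤ (1/2) ^ q K)
    (h2 : 2 * K + 4 ≤ q K * s K) : failA mm s ε K ≤ (1/2) ^ (K+2) := by
  have h := Pool.Agent.ETP.failA_le (mm := mm) (s := s) (ε := ε) q hε h1 h2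
  unfold failA
  unfold Pool.Agent.ETP.failA at h
  exact h

/-- the sum of the failure probabilities -/
lemma sum_failA_lt {K0 Kmax : ℕ} {mm s : ℕ → ℕ} {ε : ℕ → ℝ} (q : ℕ → ℕ) (hε : ∀ K, 0 ≤ ε K)
    (h1 : ∀ K, K0 ≤ K → (K : ℝ) * (mm K : ℝ) ^ 2 * (2 * s K + 1) ^ 2 * ε K ≤ (1/2) ^ q K)
    (h2 : ∀ K, K0 ≤ K → 2 * K + 4 ≤ q K * s K) : ∑ K ∈ Icc K0 Kmax, failA mm s ε K < 1 := by
  refine lt_of_le_of_lt ?_ (Pool.Agent.ETP.sum_half_pow_lt K0 Kmax)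
  refine Finset.sum_le_sum (fun K hK => ?_)
  rw [mem_Icc] at hK
  refine (failA_le q (hε K) (h1 K hK.1) (h2 K hK.1)).trans ?_
  exact pow_le_pow_of_le_one (by norm_num) (by norm_num) (by omega)

/-- the pair bounds for every `Kmax` -/
theorem pairHyp_all {K0 : ℕ} {g mm s q : ℕ → ℕ} {ε : ℕ → ℝ} {near cnt : ℕ → ℕ}
    (hε : ∀ K, 0 ≤ ε K)
    (h1 : ∀ K, K0 ≤ K → (K : ℝ) * (mm K : ℝ) ^ 2 * (2 * s K + 1) ^ 2 * ε K ≤ (1/2) ^ q K)
    (h2 : ∀ K, K0 ≤ K → 2 * K + 4 ≤ q K * s K)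
    (h : ∀ Kmax, LayHyp2 Kmax K0 g mm ε near cnt) :
    ∀ Kmax, PairHyp Kmax K0 (fun K => max (near K) (s K)) cnt :=
  fun Kmax => pairHyp_of_lay (h Kmax) s (sum_failA_lt q hε h1 h2)

/-- **the frame of phase 3**: the hypotheses for every `Kmax` give the infinite set with
`r(n) ≤ 2 ((log (log n - 1) + 1) R(log n - 1) + (log log n + 1) R(log n))`,
`R K = max (near K) (s K)`, and with at least `cnt K / (4 K) - 1` elements in `[2^K, 2^(K+1))`. -/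
theorem frame_lay {K0 : ℕ} (hK0 : 1 ≤ K0) {g mm s q : ℕ → ℕ} {ε : ℕ → ℝ} {near cnt : ℕ → ℕ}
    (hε : ∀ K, 0 ≤ ε K)
    (h1 : ∀ K, K0 ≤ K → (K : ℝ) * (mm K : ℝ) ^ 2 * (2 * s K + 1) ^ 2 * ε K ≤ (1/2) ^ q K)
    (h2 : ∀ K, K0 ≤ K → 2 * K + 4 ≤ q K * s K)
    (h : ∀ Kmax, LayHyp2 Kmax K0 g mm ε near cnt) :
    ∃ A : Set ℕ, (∀ n, {q : ℕ × ℕ | q.1 ∈ A ∧ q.2 ∈ A ∧ q.1 + q.2 = n}.ncard ≤
        2 * ((Nat.log 2 (Nat.log 2 n - 1) + 1) *
            max (near (Nat.log 2 n - 1)) (s (Nat.log 2 n - 1)) +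
          (Nat.log 2 (Nat.log 2 n) + 1) * max (near (Nat.log 2 n)) (s (Nat.log 2 n)))) ∧
      ∀ K, K0 ≤ K → cnt K / (4 * K) - 1 ≤ (A ∩ Set.Ico (2 ^ K) (2 ^ (K + 1))).ncard :=
  frame2 hK0 (pairHyp_all hε h1 h2 h)

end Pool.Agent.Helper7.E3
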