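import Mathlib
import Pool.Agent.Helper84.E3.TopDefs

/-!
# E-T (MP_12a1af_nt), phase 3, P7: the case `i' ≤ i - 2` of the top theorem
-/

variable [Pool.Agent.Helper29.E3.EpFn]

set_option autoImplicit false

open Finset

namespace Pool.Agent.Helper7.E3

open Pool.Agent.ETS (Hash pairs mem_pairs)
open Pool.Agent.E3

/-- the variables are determined by the value -/
lemma val_inj : ∀ {A : List Rg} {u v : ℕ} {h : Hash} {z z' : List ℕ}, Chain u A v →
    (∀ r ∈ A, ∀ a ∈ r.V, ∀ b ∈ r.V, r.c a ≡ r.c b [MOD 2 ^ r.len] → a = b) →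
    z ∈ Vs A → z' ∈ Vs A → val A h z = val A h z' → z = z'
  | [], u, v, h, z, z', _, _, hz, hz', _ => by
    rw [Vs_nil, mem_singleton] at hz hz'
    rw [hz, hz']
  | r :: A, u, v, h, z, z', hc, hi, hz, hz', e => by
    obtain ⟨h1, h2, h3⟩ := hc
    obtain ⟨a, t, rfl, ha, ht⟩ := mem_Vs_cons.mp hz
    obtain ⟨a', t', rfl, ha', ht'⟩ := mem_Vs_cons.mp hz'
    simp only [Pool.Agent.E3.val] at e
    obtain ⟨m, hm⟩ : 2 ^ r.top ∣ val A (r.next h a) t := (Chain.above h3).dvd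
    obtain ⟨m', hm'⟩ : 2 ^ r.top ∣ val A (r.next h a') t' := (Chain.above h3).dvd
    have hpow : 2 ^ r.top = 2 ^ r.bot * 2 ^ r.len := by
      rw [← pow_add]; congr 1; unfold Rg.len; omega
    have hx : (r.c a + h []) % 2 ^ r.len = (r.c a' + h []) % 2 ^ r.len := by
      have e1 : 2 ^ r.bot * ((r.c a + h []) % 2 ^ r.len + 2 ^ r.len * m) =
          2 ^ r.bot * ((r.c a' + h []) % 2 ^ r.len + 2 ^ r.len * m') := by
        rw [mul_add, mul_add, ← mul_assoc, ← mul_assoc, ← hpow, ← hm, ← hm']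
        exact e
      have e2 := Nat.eq_of_mul_eq_mul_left (by positivity) e1
      have e3 := congrArg (fun x => x % 2 ^ r.len) e2
      simpa [Nat.add_mul_mod_self_left] using e3
    have haa : a = a' := hi r List.mem_cons_self a ha a' ha'
      (Nat.ModEq.add_right_cancel' (h []) hx)
    subst haa
    have htt : t = t' := val_inj h3 (fun s hs => hi s (List.mem_cons_of_mem _ hs)) ht ht' (by
      rw [hx] at e
      exact Nat.add_left_cancel e)
    rw [htt]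

section

variable {G : Geo}

lemma le_nx (s : ℕ) : s ≤ G.nx s := Nat.le_add_right _ _

lemma le_iter (n : ℕ) : ∀ s : ℕ, s ≤ G.nx^[n] s := by
  induction n with
  | zero => intro s; exact le_rfl
  | succ n ih =>
    intro s
    rw [Function.iterate_succ_apply]
    exact (le_nx s).trans (ih _)

lemma chain_cl (n : ℕ) : ∀ a : ℕ, Chain a (cl G a n) (G.nx^[n] a) := by
  induction n with
  | zero => intro a; exact rfl
  | succ n ih =>
    intro a
    rw [Function.iterate_succ_apply]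
    exact ⟨rfl, Nat.le_add_right _ _, ih _⟩

lemma chain_zn {D : ℕ → Dt} {K : ℕ} (h : G.q K ≤ K) : Chain (G.q K) [zn G D K] K :=
  ⟨rfl, h, rfl⟩

lemma chain_top {D : ℕ → Dt} {K n a : ℕ} (hq : G.q K = G.nx^[n] a) (h : G.q K ≤ K) :
    Chain a (cl G a n ++ [zn G D K]) K := by
  refine (chain_cl n a).append ?_
  rw [← hq]
  exact chain_zn h

lemma inj_cl {K0 : ℕ} (hsd : ∀ s, K0 ≤ s → SdOk G.Sd (G.ln s)) (n : ℕ) : ∀ a, K0 ≤ a →
    ∀ r ∈ cl G a n, ∀ x ∈ r.V, ∀ y ∈ r.V, r.c x ≡ r.c y [MOD 2 ^ r.len] → x = y := by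
  induction n with
  | zero => intro a _ r hr; simp [cl] at hr
  | succ n ih =>
    intro a ha r hr x hx y hy hxy
    rw [cl, List.mem_cons] at hr
    rcases hr with rfl | hr
    · have hx' : x < 2 ^ G.ln a := (hsd a ha).lt x hx
      have hy' : y < 2 ^ G.ln a := (hsd a ha).lt y hy
      have hlen : (cellRg a (G.ln a) (G.Sd (G.ln a))).len = G.ln a := by
        simp [Rg.len, cellRg]
      rw [hlen] at hxy
      exact Nat.ModEq.eq_of_lt_of_lt hxy hx' hy'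
    · exact ih _ (ha.trans (le_nx a)) r hr x hx y hy hxy

lemma mem_zn_V {D : ℕ → Dt} {K x : ℕ} :
    x ∈ (zn G D K).V ↔ x.unpair.1 ∈ G.Sd (G.l K) ∧ x.unpair.2 ∈ (D K).T := by
  show x ∈ pairs _ _ ↔ _
  rw [mem_pairs]

lemma q_le (hG : G.Ok) {K : ℕ} (hK : G.K0 ≤ K) : G.w K ≤ K := (le_nx _).trans (hG.lo K hK)

lemma len_zn (hG : G.Ok) {D : ℕ → Dt} {K : ℕ} (hK : G.K0 ≤ K) :
    (zn G D K).len = G.l K + G.ρ K := by
  have h1 := q_le hG hK
  show K - G.q K = G.l K + (K - G.w K)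
  have h2 : G.w K = G.q K + G.l K := rfl
  omega

lemma inj_zn (hG : G.Ok) {D : ℕ → Dt} {K : ℕ} (hK : G.K0 ≤ K) (hlt : ∀ t ∈ (D K).T, t < 2 ^ G.ρ K) :
    ∀ x ∈ (zn G D K).V, ∀ y ∈ (zn G D K).V, (zn G D K).c x ≡ (zn G D K).c y
      [MOD 2 ^ (zn G D K).len] → x = y := by
  intro x hx y hy hxy
  rw [mem_zn_V] at hx hy
  have hsd := hG.sd K (G.q K) hK le_rfl
  have u1 : x.unpair.1 < 2 ^ G.l K := hsd.lt _ hx.1
  have u2 : y.unpair.1 < 2 ^ G.l K := hsd.lt _ hy.1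
  have t1 := hlt _ hx.2
  have t2 := hlt _ hy.2
  rw [len_zn hG hK] at hxy
  have hxy' : x.unpair.1 + 2 ^ G.l K * x.unpair.2 ≡ y.unpair.1 + 2 ^ G.l K * y.unpair.2
      [MOD 2 ^ (G.l K + G.ρ K)] := hxy
  have bd : ∀ u t : ℕ, u < 2 ^ G.l K → t < 2 ^ G.ρ K → u + 2 ^ G.l K * t < 2 ^ (G.l K + G.ρ K) := by
    intro u t hu ht
    rw [pow_add]
    calc u + 2 ^ G.l K * t < 2 ^ G.l K + 2 ^ G.l K * t := by omega
      _ = 2 ^ G.l K * (t + 1) := by ring
      _ ≤ 2 ^ G.l K * 2 ^ G.ρ K := Nat.mul_le_mul_left _ ht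
  have e := hxy'.eq_of_lt_of_lt (bd _ _ u1 t1) (bd _ _ u2 t2)
  have e1 : x.unpair.1 = y.unpair.1 := by
    have := congrArg (fun z => z % 2 ^ G.l K) e
    simpa [Nat.add_mul_mod_self_left, Nat.mod_eq_of_lt u1, Nat.mod_eq_of_lt u2] using this
  have e2 : x.unpair.2 = y.unpair.2 := by
    rw [e1] at e
    exact Nat.eq_of_mul_eq_mul_left (by positivity) (Nat.add_left_cancel e)
  rw [← Nat.pair_unpair x, ← Nat.pair_unpair y, e1, e2]

/-- the value of the top regions above a grid point -/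
lemma third (hG : G.Ok) {D : ℕ → Dt} {K : ℕ} (hK : G.K0 ≤ K) :
    ∀ {n a : ℕ}, G.q K = G.nx^[n] a → ∀ {h : Hash} {z : List ℕ},
    z ∈ Vs (cl G a n ++ [zn G D K]) → ∃ c2 ∈ G.Sd (G.ln a), ∃ w,
    val (cl G a n ++ [zn G D K]) h z = 2 ^ a * ((c2 + h []) % 2 ^ G.ln a + 2 ^ G.ln a * w)
  | 0, a, hq, h, z, hz => by
    have hq' : G.q K = a := hq
    rw [cl, List.nil_append] at hz ⊢
    obtain ⟨x, rfl, hx⟩ := mem_Vs_single.mp hz
    rw [mem_zn_V] at hx
    have hla : G.l K = G.ln a := by rw [← hq']; rfl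
    refine ⟨x.unpair.1, by rw [← hla]; exact hx.1,
      (x.unpair.1 + 2 ^ G.ln a * x.unpair.2 + h []) / 2 ^ G.ln a % 2 ^ G.ρ K, ?_⟩
    have hval : val [zn G D K] h [x] = 2 ^ G.q K * ((x.unpair.1 + 2 ^ G.l K * x.unpair.2 + h []) %
        2 ^ (zn G D K).len) + 0 := rfl
    rw [hval, len_zn hG hK, hq', hla, pow_add, Nat.mod_mul, add_zero]
    congr 2
    have : x.unpair.1 + 2 ^ G.ln a * x.unpair.2 + h [] =
      x.unpair.1 + h [] + 2 ^ G.ln a * x.unpair.2 := by ring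
    rw [this, Nat.add_mul_mod_self_left]
  | n + 1, a, hq, h, z, hz => by
    rw [cl, List.cons_append] at hz ⊢
    obtain ⟨x, t, rfl, hx, ht⟩ := mem_Vs_cons.mp hz
    have hq' : G.q K = G.nx^[n] (G.nx a) := by rw [hq, Function.iterate_succ_apply]
    have hqK : G.q K ≤ K := (le_nx _).trans (q_le hG hK)
    have hch := chain_top (D := D) hq' hqK
    obtain ⟨m, hm⟩ : 2 ^ G.nx a ∣ val (cl G (G.nx a) n ++ [zn G D K])
      ((cellRg a (G.ln a) (G.Sd (G.ln a))).next h x) t := (Chain.above hch).dvd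
    refine ⟨x, hx, m, ?_⟩
    simp only [Pool.Agent.E3.val]
    rw [hm]
    have hlen : (cellRg a (G.ln a) (G.Sd (G.ln a))).len = G.ln a := by
      simp [Rg.len, cellRg]
    have hb : (cellRg a (G.ln a) (G.Sd (G.ln a))).bot = a := rfl
    have hc : (cellRg a (G.ln a) (G.Sd (G.ln a))).c x = x := rfl
    rw [hlen, hb, hc]
    have hnx : G.nx a = a + G.ln a := rfl
    rw [hnx, pow_add]
    ring

/-- pair test with a shift -/
lemma pair_shift {Sd : ℕ → Finset ℕ} {l : ℕ} (h : SdOk Sd l) (σ x : ℕ) :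
    ((Sd l ×ˢ Sd l).filter (fun q => (q.1 + q.2 + σ) % 2 ^ l = x)).card ≤ 8 := by
  rcases ((Sd l ×ˢ Sd l).filter (fun q => (q.1 + q.2 + σ) % 2 ^ l = x)).eq_empty_or_nonempty
    with he | ⟨q0, hq0⟩
  · rw [he]; simp
  · refine (card_le_card ?_).trans (h.pair ((q0.1 + q0.2) % 2 ^ l))
    intro q hq
    rw [mem_filter] at hq hq0 ⊢
    exact ⟨hq.1, Nat.ModEq.add_right_cancel' σ (hq.2.trans hq0.2.symm)⟩

/-- the digits of the sum at the two lowest cells above the zone bottom -/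
lemma arith {L0 L1 L2 R P ν u' t' s' d0 d1 d2 w : ℕ} (hP : 0 < P) (hL0 : 0 < L0)
    (h : P * d0 + (P * L0 * d1 + P * L0 * L1 * (d2 + L2 * w)) +
      P * ((u' + L0 * t' + s') % (L0 * R)) = ν) :
    (d0 + u' + s') % L0 = ν / P % L0 ∧
    (d1 + L1 * d2 + (t' + (u' + s') / L0) % R) % (L1 * L2) =
      (ν / P / L0 - (d0 + (u' + s') % L0) / L0) % (L1 * L2) := by
  have e1 : ν = P * (d0 + L0 * (d1 + L1 * (d2 + L2 * w)) + (u' + L0 * t' + s') % (L0 * R)) := by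
    rw [← h]; ring
  have e2 : ν / P = d0 + L0 * (d1 + L1 * (d2 + L2 * w)) + (u' + L0 * t' + s') % (L0 * R) := by
    rw [e1, Nat.mul_div_cancel_left _ hP]
  have e3 : (u' + L0 * t' + s') % (L0 * R) =
      (u' + s') % L0 + L0 * ((t' + (u' + s') / L0) % R) := by
    rw [Nat.mod_mul]
    have a1 : u' + L0 * t' + s' = u' + s' + L0 * t' := by ring
    rw [a1, Nat.add_mul_mod_self_left, Nat.add_mul_div_left _ _ hL0, add_comm ((u' + s') / L0) t']
  have e4 : ν / P = (d0 + (u' + s') % L0) +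
      L0 * (d1 + L1 * (d2 + L2 * w) + (t' + (u' + s') / L0) % R) := by
    rw [e2, e3]; ring
  constructor
  · rw [e4, Nat.add_mul_mod_self_left, add_assoc, Nat.add_mod, Nat.add_mod d0 ((u' + s') % L0),
      Nat.mod_mod]
  · rw [e4, Nat.add_mul_div_left _ _ hL0, Nat.add_sub_cancel_left]
    have a2 : d1 + L1 * (d2 + L2 * w) + (t' + (u' + s') / L0) % R =
      d1 + L1 * d2 + (t' + (u' + s') / L0) % R + L1 * L2 * w := by ring
    rw [a2, Nat.add_mul_mod_self_left]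

/-- completions -/
theorem case2_card (hG : G.Ok) {D : ℕ → Dt} {K K' : ℕ} (hn : G.Near K K') (hPT : PT G D K)
    (hPT' : PT G D K') {n : ℕ} (hq : G.q K = G.nx^[n + 2] (G.q K')) (h h' : Hash) (ν : ℕ) :
    cnt (cl G (G.q K') (n + 2) ++ [zn G D K]) [zn G D K'] h h' ν ≤ 16 * G.A K := by
  classical
  obtain ⟨hK', hle, hg⟩ := hn
  have hK : G.K0 ≤ K := hK'.trans hle
  have hqK : G.q K ≤ K := (le_nx _).trans (q_le hG hK)
  have hq2 : G.q K = G.nx^[n] (G.nx (G.w K')) := by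
    rw [hq, Function.iterate_succ_apply, Function.iterate_succ_apply]; rfl
  have hch := chain_top (D := D) hq hqK
  have hinj : ∀ r ∈ cl G (G.q K') (n + 2) ++ [zn G D K], ∀ a ∈ r.V, ∀ b ∈ r.V,
      r.c a ≡ r.c b [MOD 2 ^ r.len] → a = b := by
    intro r hr
    rcases List.mem_append.mp hr with hr | hr
    · exact inj_cl (fun s hs => hG.sd K' s hK' hs) (n + 2) (G.q K') le_rfl r hr
    · rw [List.mem_singleton] at hr
      rw [hr]
      exact inj_zn hG hK hPT.lt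
  set l0 := G.ln (G.q K') with hl0
  set l1 := G.ln (G.w K') with hl1
  set l2 := G.ln (G.nx (G.w K')) with hl2
  let P0 : Finset (ℕ × ℕ) := (G.Sd l0 ×ˢ G.Sd l0).filter (fun q =>
    (q.1 + q.2 + (h [] + h' [])) % 2 ^ l0 = ν / 2 ^ G.q K' % 2 ^ l0)
  let TT : ℕ × ℕ → Finset ℕ := fun q => (D K').T.filter (fun t => ∃ c1 ∈ G.Sd l1,
    ∃ c2 ∈ G.Sd l2, ((c1 + h [0]) % 2 ^ l1 + 2 ^ l1 * ((c2 + h [0, q.1]) % 2 ^ l2) +
      (t + (q.2 + h' []) / 2 ^ l0) % 2 ^ G.ρ K') % 2 ^ (l1 + l2) =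
      (ν / 2 ^ G.q K' / 2 ^ l0 - ((q.1 + h []) % 2 ^ l0 + (q.2 + h' []) % 2 ^ l0) / 2 ^ l0) %
        2 ^ (l1 + l2))
  let φ : List ℕ × List ℕ → (_ : ℕ × ℕ) × ℕ := fun p =>
    ⟨(p.1.headD 0, (p.2.headD 0).unpair.1), (p.2.headD 0).unpair.2⟩
  have h1 : cnt (cl G (G.q K') (n + 2) ++ [zn G D K]) [zn G D K'] h h' ν ≤
      (P0.sigma TT).card := by
    unfold cnt
    refine card_le_card_of_injOn φ ?_ ?_
    · intro p hp
      rw [mem_coe, mem_filter, mem_product] at hp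
      obtain ⟨⟨hp1, hp2⟩, hp3⟩ := hp
      obtain ⟨x, hx, hxV⟩ := mem_Vs_single.mp hp2
      rw [mem_zn_V] at hxV
      rw [cl, cl, List.cons_append, List.cons_append] at hp1 hp3
      obtain ⟨c0, r0, hr0, hc0, hr0'⟩ := mem_Vs_cons.mp hp1
      obtain ⟨c1, r1, hr1, hc1, hr1'⟩ := mem_Vs_cons.mp hr0'
      subst hr1
      rw [hr0, hx] at hp3
      obtain ⟨c2, hc2, w, hw⟩ := third hG hK hq2
        (h := (cellRg (G.nx (G.q K')) (G.ln (G.nx (G.q K'))) (G.Sd (G.ln (G.nx (G.q K'))))).next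
          ((cellRg (G.q K') (G.ln (G.q K')) (G.Sd (G.ln (G.q K')))).next h c0) c1) hr1'
      simp only [Pool.Agent.E3.val] at hp3
      have hw' := hw
      rw [show G.nx (G.w K') = G.nx (G.nx (G.q K')) from rfl] at hw'
      rw [hw'] at hp3
      have hlen0 : (cellRg (G.q K') (G.ln (G.q K')) (G.Sd (G.ln (G.q K')))).len = l0 := by
        simp [Rg.len, cellRg, hl0]
      have hlen1 : (cellRg (G.nx (G.q K')) (G.ln (G.nx (G.q K')))
          (G.Sd (G.ln (G.nx (G.q K'))))).len = l1 := by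
        simp [Rg.len, cellRg, hl1, Geo.w]
      have hlenz : (zn G D K').len = l0 + G.ρ K' := len_zn hG hK'
      rw [hlen0, hlen1, hlenz] at hp3
      have hbz : (zn G D K').bot = G.q K' := rfl
      have hcz : (zn G D K').c x = x.unpair.1 + 2 ^ l0 * x.unpair.2 := rfl
      have hb0 : (cellRg (G.q K') (G.ln (G.q K')) (G.Sd (G.ln (G.q K')))).bot = G.q K' := rfl
      have hb1 : (cellRg (G.nx (G.q K')) (G.ln (G.nx (G.q K')))
          (G.Sd (G.ln (G.nx (G.q K'))))).bot = G.q K' + l0 := rfl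
      have hcc0 : (cellRg (G.q K') (G.ln (G.q K')) (G.Sd (G.ln (G.q K')))).c c0 = c0 := rfl
      have hcc1 : (cellRg (G.nx (G.q K')) (G.ln (G.nx (G.q K')))
          (G.Sd (G.ln (G.nx (G.q K'))))).c c1 = c1 := rfl
      have hs1 : (cellRg (G.q K') (G.ln (G.q K')) (G.Sd (G.ln (G.q K')))).next h c0 [] =
        h [0] := rfl
      have hs2 : (cellRg (G.nx (G.q K')) (G.ln (G.nx (G.q K')))
          (G.Sd (G.ln (G.nx (G.q K'))))).next
          ((cellRg (G.q K') (G.ln (G.q K')) (G.Sd (G.ln (G.q K')))).next h c0) c1 [] =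
        h [0, c0] := rfl
      have hb2 : G.nx (G.nx (G.q K')) = G.q K' + l0 + l1 := rfl
      have hl2' : G.ln (G.q K' + l0 + l1) = l2 := rfl
      rw [hbz, hcz, hb0, hb1, hcc0, hcc1, hs1, hs2, hb2, hl2'] at hp3
      have key := arith (L0 := 2 ^ l0) (L1 := 2 ^ l1) (L2 := 2 ^ l2) (R := 2 ^ G.ρ K')
        (P := 2 ^ G.q K') (ν := ν) (u' := x.unpair.1) (t' := x.unpair.2) (s' := h' [])
        (d0 := (c0 + h []) % 2 ^ l0) (d1 := (c1 + h [0]) % 2 ^ l1)
        (d2 := (c2 + h [0, c0]) % 2 ^ l2) (w := w) (by positivity) (by positivity) (by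
          rw [← hp3, pow_add, pow_add, pow_add]
          ring_nf)
      obtain ⟨k1, k2⟩ := key
      rw [mem_coe, mem_sigma]
      simp only [φ, P0, TT, hr0, hx, List.headD_cons, mem_filter, mem_product]
      refine ⟨⟨⟨hc0, hxV.1⟩, ?_⟩, hxV.2, c1, hc1, c2, hc2, ?_⟩
      · rw [← k1]
        have : c0 + x.unpair.1 + (h [] + h' []) = (c0 + h []) + (x.unpair.1 + h' []) := by ring
        rw [this, add_assoc ((c0 + h []) % 2 ^ l0), Nat.mod_add_mod]
      · rw [pow_add]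
        exact k2
    · intro p hp p' hp' e
      rw [mem_coe, mem_filter, mem_product] at hp hp'
      obtain ⟨⟨hp1, hp2⟩, hp3⟩ := hp
      obtain ⟨⟨hq1, hq2⟩, hq3⟩ := hp'
      obtain ⟨x, hx, hxV⟩ := mem_Vs_single.mp hp2
      obtain ⟨x', hx', hxV'⟩ := mem_Vs_single.mp hq2
      simp only [φ, hx, hx', List.headD_cons, Sigma.mk.injEq, Prod.mk.injEq, heq_eq_eq] at e
      have hxx : x = x' := by
        rw [← Nat.pair_unpair x, ← Nat.pair_unpair x', e.1.2, e.2]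
      have h2 : p.2 = p'.2 := by rw [hx, hx', hxx]
      refine Prod.ext ?_ h2
      refine val_inj (h := h) hch hinj hp1 hq1 ?_
      rw [h2] at hp3
      omega
  refine h1.trans ?_
  rw [card_sigma]
  have h2 : ∀ q ∈ P0, (TT q).card ≤ 2 * G.A K' := fun q _ =>
    hPT'.ta ((q.2 + h' []) / 2 ^ l0) _ (h [0]) (h [0, q.1])
  have h3 : P0.card ≤ 8 := pair_shift (hG.sd K' (G.q K') hK' le_rfl) _ _
  have h4 := hG.A_mono hle
  calc ∑ q ∈ P0, (TT q).card ≤ ∑ q ∈ P0, 2 * G.A K' := sum_le_sum h2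
    _ = P0.card * (2 * G.A K') := by rw [sum_const, smul_eq_mul]
    _ ≤ 8 * (2 * G.A K') := Nat.mul_le_mul_right _ h3
    _ ≤ 16 * G.A K := by omega

/-- the survivors -/
theorem case2_surv (hG : G.Ok) {D : ℕ → Dt} {K K' : ℕ} (hn : G.Near K K') {n : ℕ}
    (hq : G.q K = G.nx^[n + 2] (G.q K')) (h h' : Hash) (s ν : ℕ)
    (hs : ∀ y ∈ Vs (cl G (G.q K') (n + 2)), nexts (cl G (G.q K') (n + 2)) h y [] = s) :
    K' < G.w K ∧
    (0 < cnt (cl G (G.q K') (n + 2) ++ [zn G D K]) [zn G D K'] h h' ν → ∃ e < 3, ∃ t ∈ (D K).T,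
      (t + s / 2 ^ G.l K + e) % 2 ^ G.ρ K = ν / 2 ^ G.w K % 2 ^ G.ρ K) := by
  obtain ⟨hK', hle, hg⟩ := hn
  have hK : G.K0 ≤ K := hK'.trans hle
  have hq2 : G.q K = G.nx^[n] (G.nx (G.w K')) := by
    rw [hq, Function.iterate_succ_apply, Function.iterate_succ_apply]; rfl
  have hw3 : G.nx (G.nx (G.w K')) ≤ G.w K := by
    have e1 : G.w K = G.nx^[n] (G.nx (G.nx (G.w K'))) := by
      show G.nx (G.q K) = _
      rw [hq2, ← Function.iterate_succ_apply' G.nx n, Function.iterate_succ_apply]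
    rw [e1]
    exact le_iter n _
  have hKw : K' < G.w K := lt_of_lt_of_le (hG.hi K' hK') hw3
  refine ⟨hKw, fun hpos => ?_⟩
  unfold cnt at hpos
  obtain ⟨p, hp⟩ := card_pos.mp hpos
  rw [mem_filter, mem_product] at hp
  obtain ⟨⟨hp1, hp2⟩, hp3⟩ := hp
  obtain ⟨y, z, hyz, hy, hz⟩ := mem_Vs_append.mp hp1
  obtain ⟨x, rfl, hx⟩ := mem_Vs_single.mp hz
  rw [mem_zn_V] at hx
  rw [hyz, val_append (length_of_mem_Vs hy)] at hp3
  have hval : Pool.Agent.E3.val [zn G D K] (nexts (cl G (G.q K') (n + 2)) h y) [x] =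
      2 ^ G.q K * ((x.unpair.1 + 2 ^ G.l K * x.unpair.2 +
        (nexts (cl G (G.q K') (n + 2)) h y) []) % 2 ^ (zn G D K).len) + 0 := rfl
  rw [hval, len_zn hG hK, hs y hy, add_zero] at hp3
  have hlow : Pool.Agent.E3.val (cl G (G.q K') (n + 2)) h y < 2 ^ G.q K := by
    have h1 := (chain_cl (G := G) (n + 2) (G.q K')).val_lt (h := h) (z := y)
    rw [← hq] at h1
    have : 0 < 2 ^ G.q K' := by positivity
    omega
  have hlow' : Pool.Agent.E3.val [zn G D K'] h' p.2 < 2 ^ G.w K := by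
    have hqK' : G.q K' ≤ K' := (le_nx _).trans (q_le hG hK')
    have h1 := (chain_zn (D := D) hqK').val_lt (h := h') (z := p.2)
    have h2 : 2 ^ K' ≤ 2 ^ G.w K := Nat.pow_le_pow_right (by norm_num) hKw.le
    have : 0 < 2 ^ G.q K' := by positivity
    omega
  have hu : x.unpair.1 < 2 ^ G.l K := (hG.sd K (G.q K) hK le_rfl).lt _ hx.1
  set X0 := Pool.Agent.E3.val (cl G (G.q K') (n + 2)) h y
  set X' := Pool.Agent.E3.val [zn G D K'] h' p.2
  set u := x.unpair.1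
  set t := x.unpair.2
  have hwq : 2 ^ G.w K = 2 ^ G.q K * 2 ^ G.l K := by rw [← pow_add]; rfl
  set P := 2 ^ G.q K with hP
  set L := 2 ^ G.l K with hL
  set R := 2 ^ G.ρ K with hR
  have hP0 : 0 < P := by positivity
  have hL0 : 0 < L := by positivity
  have hR0 : 0 < R := by positivity
  -- digits of the zone
  have e3 : (u + L * t + s) % (2 ^ (G.l K + G.ρ K)) =
      (u + s) % L + L * ((t + (u + s) / L) % R) := by
    rw [pow_add, ← hL, ← hR, Nat.mod_mul]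
    have a1 : u + L * t + s = u + s + L * t := by ring
    rw [a1, Nat.add_mul_mod_self_left, Nat.add_mul_div_left _ _ hL0, add_comm ((u + s) / L) t]
  rw [e3] at hp3
  set m1 := (u + s) % L with hm1
  set m2 := (t + (u + s) / L) % R with hm2
  have hm1L : m1 < L := Nat.mod_lt _ hL0
  have hX : X0 + P * m1 < P * L := by
    calc X0 + P * m1 < P + P * m1 := by omega
      _ = P * (m1 + 1) := by ring
      _ ≤ P * L := Nat.mul_le_mul_left _ hm1L
  have e4 : ν = (X0 + P * m1 + X') + 2 ^ G.w K * m2 := by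
    rw [← hp3, hwq]; ring
  have hW0 : 0 < 2 ^ G.w K := by positivity
  have e5 : ν / 2 ^ G.w K = (X0 + P * m1 + X') / 2 ^ G.w K + m2 := by
    rw [e4, Nat.add_mul_div_left _ _ hW0]
  have hc1 : (X0 + P * m1 + X') / 2 ^ G.w K < 2 := by
    rw [Nat.div_lt_iff_lt_mul hW0]
    rw [← hwq] at hX
    omega
  have hc2 : (u + s) / L = s / L ∨ (u + s) / L = s / L + 1 := by
    have h1 : (u + s) / L < s / L + 2 := by
      rw [Nat.div_lt_iff_lt_mul hL0]
      have := Nat.lt_div_mul_add hL0 (a := s)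
      calc u + s < L + (s / L * L + L) := by omega
        _ = (s / L + 2) * L := by ring
    have h2 : s / L ≤ (u + s) / L := Nat.div_le_div_right (Nat.le_add_left _ _)
    omega
  obtain ⟨c, hc⟩ : ∃ c, c = (X0 + P * m1 + X') / 2 ^ G.w K := ⟨_, rfl⟩
  obtain ⟨d, hd⟩ : ∃ d, (u + s) / L = s / L + d ∧ d < 2 := by
    rcases hc2 with h1 | h1
    · exact ⟨0, by rw [h1, add_zero], by norm_num⟩
    · exact ⟨1, by rw [h1], by norm_num⟩
  refine ⟨c + d, by omega, t, hx.2, ?_⟩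
  rw [e5, hm2, hd.1, ← hc, Nat.add_mod_mod]
  congr 1
  omega

/-- **the case `i' ≤ i - 2`** -/
theorem top_case2 (hG : G.Ok) {D : ℕ → Dt}
    (hD : ∀ K, G.K0 ≤ K → PH G D K ∧ PS G D K ∧ PT G D K) {K K' : ℕ} (hn : G.Near K K') {n : ℕ}
    (hq : G.q K = G.nx^[n + 2] (G.q K')) (h h' : Hash) (s s' ν : ℕ)
    (hs : ∀ y ∈ Vs (cl G (G.q K') (n + 2)), nexts (cl G (G.q K') (n + 2)) h y [] = s)
    (_hs' : h' [] = s') :
    K' < G.w K ∧ cnt (cl G (G.q K') (n + 2) ++ [zn G D K]) [zn G D K'] h h' ν ≤ 16 * G.A K ∧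
    (0 < cnt (cl G (G.q K') (n + 2) ++ [zn G D K]) [zn G D K'] h h' ν → ∃ e < 3, ∃ t ∈ (D K).T,
      (t + s / 2 ^ G.l K + e) % 2 ^ G.ρ K = ν / 2 ^ G.w K % 2 ^ G.ρ K) := by
  have h1 := case2_surv hG (D := D) hn hq h h' s ν hs
  exact ⟨h1.1, case2_card hG hn (hD K (hn.1.trans hn.2.1)).2.2 (hD K' hn.1).2.2 hq h h' ν, h1.2⟩

end

end Pool.Agent.Helper7.E3
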