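import Mathlib
import Pool.Agent.Helper7.E3.List2

/-!
# E-T (MP_12a1af_nt), phase 3: top theorems, the case `i' = i - 1`
-/

variable [Pool.Agent.Helper29.E3.EpFn]

set_option autoImplicit false

open Finset

namespace Pool.Agent.Helper7.E3

open Pool.Agent.ETS (Hash pairs mem_pairs)
open Pool.Agent.E3

variable {G : Geo}

/-- `x + (M - 1) e` is `x - e` modulo `M` -/
lemma add_pred_mul {M : ℕ} (hM : 0 < M) (x e : ℕ) : (x + (M - 1) * e) + e ≡ x [MOD M] := by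
  have h1 : (x + (M - 1) * e) + e = x + M * e := by
    obtain ⟨m, hm⟩ := Nat.exists_eq_add_of_le (show 1 ≤ M from hM)
    rw [hm, Nat.add_sub_cancel_left]; ring
  rw [h1]
  show (x + M * e) % M = x % M
  rw [Nat.add_mul_mod_self_left]

/-- `y + e ≡ x` iff `y ≡ x + (M - 1) e` -/
lemma modEq_pred {M : ℕ} (hM : 0 < M) {x y e : ℕ} (h : y + e ≡ x [MOD M]) :
    y ≡ x + (M - 1) * e [MOD M] :=
  Nat.ModEq.add_right_cancel' e (h.trans (add_pred_mul hM x e).symm)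

/-- summation over the elements of `Lam` and the elements of the window set -/
lemma sum_two {α : Type*} [DecidableEq α] (Λ : Finset α) (T TS : Finset ℕ) (g : α → ℕ → ℕ)
    (Λt : ℕ → Finset α) (hg : ∀ a ∈ Λ, ∀ t ∈ T, g a t ≠ 0 → t ∈ TS ∧ a ∈ Λt t) {τ B : ℕ}
    (hτ : ∀ a t, g a t ≤ τ) (hB : ∀ t, (Λt t).card ≤ B) :
    ∑ a ∈ Λ, ∑ t ∈ T, g a t ≤ TS.card * (B * τ) := by
  rw [Finset.sum_comm]
  have h1 : ∀ t ∈ T, ∑ a ∈ Λ, g a t ≤ if t ∈ TS then B * τ else 0 := by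
    intro t ht
    split_ifs with hts
    · calc ∑ a ∈ Λ, g a t ≤ ∑ a ∈ Λt t, τ := by
            calc ∑ a ∈ Λ, g a t = ∑ a ∈ Λ.filter (fun a => g a t ≠ 0), g a t := by
                  rw [Finset.sum_filter_ne_zero]
              _ ≤ ∑ a ∈ Λ.filter (fun a => g a t ≠ 0), τ := sum_le_sum (fun a _ => hτ a t)
              _ ≤ ∑ a ∈ Λt t, τ := by
                  refine sum_le_sum_of_subset ?_
                  intro a ha
                  rw [mem_filter] at ha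
                  exact (hg a ha.1 t ht ha.2).2
        _ = (Λt t).card * τ := by rw [sum_const, smul_eq_mul]
        _ ≤ B * τ := Nat.mul_le_mul_right _ (hB t)
    · refine le_of_eq (sum_eq_zero (fun a ha => ?_))
      by_contra h0
      exact hts (hg a ha t ht h0).1
  calc ∑ t ∈ T, ∑ a ∈ Λ, g a t ≤ ∑ t ∈ T, (if t ∈ TS then B * τ else 0) := sum_le_sum h1
    _ = ∑ t ∈ T.filter (fun t => t ∈ TS), B * τ := (sum_filter _ _).symm
    _ ≤ ∑ t ∈ TS, B * τ := by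
        refine sum_le_sum_of_subset ?_
        intro t ht
        exact (mem_filter.mp ht).2
    _ = TS.card * (B * τ) := by rw [sum_const, smul_eq_mul]

/-- the digits of the sum above the first cell -/
lemma arith1 {L0 R P ν u' t' s' d0 Z : ℕ} (hP : 0 < P) (hL0 : 0 < L0)
    (h : P * d0 + P * L0 * Z + P * ((u' + L0 * t' + s') % (L0 * R)) = ν) :
    (d0 + u' + s') % L0 = ν / P % L0 ∧
    Z + (t' + (u' + s') / L0) % R + (d0 + (u' + s') % L0) / L0 = ν / P / L0 := by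
  have e1 : ν = P * (d0 + L0 * Z + (u' + L0 * t' + s') % (L0 * R)) := by
    rw [← h]; ring
  have e2 : ν / P = d0 + L0 * Z + (u' + L0 * t' + s') % (L0 * R) := by
    rw [e1, Nat.mul_div_cancel_left _ hP]
  have e3 : (u' + L0 * t' + s') % (L0 * R) =
      (u' + s') % L0 + L0 * ((t' + (u' + s') / L0) % R) := by
    rw [Nat.mod_mul]
    have a1 : u' + L0 * t' + s' = u' + s' + L0 * t' := by ring
    rw [a1, Nat.add_mul_mod_self_left, Nat.add_mul_div_left _ _ hL0, add_comm ((u' + s') / L0) t']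
  have e4 : ν / P = (d0 + (u' + s') % L0) +
      L0 * (Z + (t' + (u' + s') / L0) % R) := by
    rw [e2, e3]; ring
  constructor
  · rw [e4, Nat.add_mul_mod_self_left, add_assoc, Nat.add_mod, Nat.add_mod d0 ((u' + s') % L0),
      Nat.mod_mod]
  · rw [e4, Nat.add_mul_div_left _ _ hL0]
    ring

section

variable (G) (D : ℕ → Dt)

/-- the pairs of contents of the two facing cells at the bottom -/
def P0 (K' σ σ' ν : ℕ) : Finset (ℕ × ℕ) :=
  (G.Sd (G.ln (G.q K')) ×ˢ G.Sd (G.ln (G.q K'))).filter (fun q =>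
    (q.1 + q.2 + (σ + σ')) % 2 ^ G.ln (G.q K') = ν / 2 ^ G.q K' % 2 ^ G.ln (G.q K'))

/-- the carry above the first cell -/
def kap (K' σ σ' : ℕ) (q : ℕ × ℕ) : ℕ :=
  ((q.1 + σ) % 2 ^ G.ln (G.q K') + (q.2 + σ') % 2 ^ G.ln (G.q K')) / 2 ^ G.ln (G.q K')

lemma kap_lt (K' σ σ' : ℕ) (q : ℕ × ℕ) : kap G K' σ σ' q < 2 := by
  unfold kap
  rw [Nat.div_lt_iff_lt_mul (by positivity)]
  have h1 : (q.1 + σ) % 2 ^ G.ln (G.q K') < 2 ^ G.ln (G.q K') := Nat.mod_lt _ (by positivity)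
  have h2 : (q.2 + σ') % 2 ^ G.ln (G.q K') < 2 ^ G.ln (G.q K') := Nat.mod_lt _ (by positivity)
  omega

open Classical in
/-- the pairs of elements of the window sets in the case `i' = i - 1` -/
noncomputable def FF (K K' s β n : ℕ) : Finset (ℕ × ℕ) :=
  ((D K).T ×ˢ (D K').T).filter (fun p => ∃ u ∈ G.Sd (G.l K),
    (u + 2 ^ G.l K * p.1 + s + (p.2 + β) % 2 ^ G.ρ K') % 2 ^ (K - G.q K) = n % 2 ^ (K - G.q K))

end

/-- **reduction**, the case `i' = i - 1` -/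
theorem case1_cnt (hG : G.Ok) {D : ℕ → Dt} {K K' : ℕ} (hn : G.Near K K') (hPT : PT G D K)
    (hq : G.q K = G.w K') (h h' : Hash) (s ν : ℕ)
    (hs : ∀ y ∈ Vs (cl G (G.q K') 1), nexts (cl G (G.q K') 1) h y [] = s) :
    cnt (cl G (G.q K') 1 ++ [zn G D K]) [zn G D K'] h h' ν ≤
      ∑ q ∈ P0 G K' (h []) (h' []) ν,
        (FF G D K K' s ((q.2 + h' []) / 2 ^ G.ln (G.q K'))
          (ν / 2 ^ G.q K' / 2 ^ G.ln (G.q K') + (2 ^ (K - G.q K) - 1) *
            kap G K' (h []) (h' []) q)).card := by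
  classical
  obtain ⟨hK', hle, hg⟩ := hn
  have hK : G.K0 ≤ K := hK'.trans hle
  have hqK : G.q K ≤ K := (le_nx _).trans (q_le hG hK)
  have hq1 : G.q K = G.nx^[1] (G.q K') := hq
  have hch := chain_top (D := D) hq1 hqK
  have hinj : ∀ r ∈ cl G (G.q K') 1 ++ [zn G D K], ∀ a ∈ r.V, ∀ b ∈ r.V,
      r.c a ≡ r.c b [MOD 2 ^ r.len] → a = b := by
    intro r hr
    rcases List.mem_append.mp hr with hr | hr
    · exact inj_cl (fun s hs => hG.sd K' s hK' hs) 1 (G.q K') le_rfl r hr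
    · rw [List.mem_singleton] at hr
      rw [hr]
      exact inj_zn hG hK hPT.lt
  set l0 := G.ln (G.q K') with hl0
  let TT : ℕ × ℕ → Finset (ℕ × ℕ) := fun q => FF G D K K' s ((q.2 + h' []) / 2 ^ l0)
    (ν / 2 ^ G.q K' / 2 ^ l0 + (2 ^ (K - G.q K) - 1) * kap G K' (h []) (h' []) q)
  let φ : List ℕ × List ℕ → (_ : ℕ × ℕ) × (ℕ × ℕ) := fun p =>
    ⟨(p.1.headD 0, (p.2.headD 0).unpair.1),
      ((p.1.tail.headD 0).unpair.2, (p.2.headD 0).unpair.2)⟩
  show _ ≤ ∑ q ∈ P0 G K' (h []) (h' []) ν, (TT q).card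
  rw [← card_sigma]
  unfold cnt
  refine card_le_card_of_injOn φ ?_ ?_
  · intro p hp
    rw [mem_coe, mem_filter, mem_product] at hp
    obtain ⟨⟨hp1, hp2⟩, hp3⟩ := hp
    obtain ⟨x, hx, hxV⟩ := mem_Vs_single.mp hp2
    rw [mem_zn_V] at hxV
    have hcl : cl G (G.q K') 1 ++ [zn G D K] =
        [cellRg (G.q K') (G.ln (G.q K')) (G.Sd (G.ln (G.q K'))), zn G D K] := rfl
    rw [hcl] at hp1 hp3
    obtain ⟨c0, z, hz, hc0, hzV⟩ := mem_Vs_pair.mp hp1
    rw [mem_zn_V] at hzV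
    have hc0' : c0 ∈ G.Sd l0 := hc0
    have hsh : h [0] = s := by
      have h1 : [c0] ∈ Vs (cl G (G.q K') 1) := mem_Vs_single.mpr ⟨c0, rfl, hc0⟩
      exact hs [c0] h1
    rw [hz, hx] at hp3
    have hv1 : Pool.Agent.E3.val [cellRg (G.q K') (G.ln (G.q K')) (G.Sd (G.ln (G.q K'))),
        zn G D K] h [c0, z] = 2 ^ G.q K' * ((c0 + h []) %
          2 ^ (cellRg (G.q K') (G.ln (G.q K')) (G.Sd (G.ln (G.q K')))).len) +
        (2 ^ G.q K * ((z.unpair.1 + 2 ^ G.l K * z.unpair.2 + h [0]) % 2 ^ (K - G.q K)) + 0) := rfl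
    have hv2 : Pool.Agent.E3.val [zn G D K'] h' [x] = 2 ^ G.q K' *
        ((x.unpair.1 + 2 ^ l0 * x.unpair.2 + h' []) % 2 ^ (zn G D K').len) + 0 := rfl
    have hlen0 : (cellRg (G.q K') (G.ln (G.q K')) (G.Sd (G.ln (G.q K')))).len = l0 := by
      simp [Rg.len, cellRg, hl0]
    rw [hv1, hv2, hlen0, len_zn hG hK', hsh, hq] at hp3
    have hwl : G.w K' = G.q K' + l0 := rfl
    have hll : G.l K' = l0 := rfl
    rw [hwl, hll] at hp3
    have key := arith1 (L0 := 2 ^ l0) (R := 2 ^ G.ρ K') (P := 2 ^ G.q K') (ν := ν)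
      (u' := x.unpair.1) (t' := x.unpair.2) (s' := h' []) (d0 := (c0 + h []) % 2 ^ l0)
      (Z := (z.unpair.1 + 2 ^ G.l K * z.unpair.2 + s) % 2 ^ (K - (G.q K' + l0)))
      (by positivity) (by positivity) (by
        rw [← hp3, pow_add, pow_add]
        ring_nf)
    obtain ⟨k1, k2⟩ := key
    rw [mem_coe, mem_sigma]
    simp only [φ, hz, hx, List.headD_cons, List.tail_cons, P0, TT, FF, mem_filter, mem_product]
    refine ⟨⟨⟨hc0', hxV.1⟩, ?_⟩, ⟨hzV.2, hxV.2⟩, z.unpair.1, hzV.1, ?_⟩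
    · show (c0 + x.unpair.1 + (h [] + h' [])) % 2 ^ l0 = ν / 2 ^ G.q K' % 2 ^ l0
      rw [← k1]
      have : c0 + x.unpair.1 + (h [] + h' []) = (c0 + h []) + (x.unpair.1 + h' []) := by ring
      rw [this, add_assoc ((c0 + h []) % 2 ^ l0), Nat.mod_add_mod]
    · refine modEq_pred (by positivity) ?_
      have hk : kap G K' (h []) (h' []) (c0, x.unpair.1) =
        ((c0 + h []) % 2 ^ l0 + (x.unpair.1 + h' []) % 2 ^ l0) / 2 ^ l0 := rfl
      rw [hk, ← k2, hq, hwl]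
      refine Nat.ModEq.add_right _ ?_
      refine Nat.ModEq.add_right _ ?_
      exact (Nat.mod_modEq _ _).symm
  · intro p hp p' hp' e
    rw [mem_coe, mem_filter, mem_product] at hp hp'
    obtain ⟨⟨hp1, hp2⟩, hp3⟩ := hp
    obtain ⟨⟨hq1, hq2⟩, hq3⟩ := hp'
    obtain ⟨x, hx, hxV⟩ := mem_Vs_single.mp hp2
    obtain ⟨x', hx', hxV'⟩ := mem_Vs_single.mp hq2
    simp only [φ, hx, hx', List.headD_cons, Sigma.mk.injEq, Prod.mk.injEq, heq_eq_eq] at e
    have hxx : x = x' := by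
      rw [← Nat.pair_unpair x, ← Nat.pair_unpair x', e.1.2, e.2.2]
    have h2 : p.2 = p'.2 := by rw [hx, hx', hxx]
    refine Prod.ext ?_ h2
    refine val_inj (h := h) hch hinj hp1 hq1 ?_
    rw [h2] at hp3
    omega

lemma card_P0 (hG : G.Ok) {K' : ℕ} (hK' : G.K0 ≤ K') (σ σ' ν : ℕ) :
    (P0 G K' σ σ' ν).card ≤ 8 := pair_shift (hG.sd K' (G.q K') hK' le_rfl) _ _

end Pool.Agent.Helper7.E3
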